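import Pool.Agent.K3h81.RL.Stm
import Pool.Agent.K3h3.RS.Uniq

/-!
# Rubin's conjecture: generalized inverses in the group ring over the rational numbers
-/

set_option autoImplicit false

namespace Pool.Agent.K3h72.RL

open Pool.Agent.K3h30.RS Pool.Agent.K3h3.RS Pool.Agent.K3h81.RL

theorem t_VNR : S_VNR := by
  intro G _ _ a
  have : IsArtinianRing (MonoidAlgebra ℚ G) := IsArtinianRing.of_finite ℚ _
  obtain ⟨n, c, hc⟩ := IsArtinian.exists_pow_succ_smul_dvd a (1 : MonoidAlgebra ℚ G)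
  rw [smul_eq_mul, smul_eq_mul, mul_one] at hc
  have h1 : a ^ n * (1 - a * c) = 0 := by
    have : a ^ n * (1 - a * c) = a ^ n - a ^ n.succ * c := by
      rw [pow_succ]; ring
    rw [this, hc, sub_self]
  have h2 : (a - a ^ 2 * c) ^ (n + 1) = 0 := by
    have e : (a - a ^ 2 * c) = a * (1 - a * c) := by ring
    rw [e, mul_pow, pow_succ, pow_succ]
    calc a ^ n * a * ((1 - a * c) ^ n * (1 - a * c)) =
        a ^ n * (1 - a * c) * (a * (1 - a * c) ^ n) := by ring
      _ = 0 := by rw [h1, zero_mul]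
  have h3 : a - a ^ 2 * c = 0 := by
    refine eq_zero_of_charValue _ fun χ => ?_
    rw [← cvQ_apply]
    have h4 := congrArg (cvQ χ) h2
    rw [map_pow, map_zero] at h4
    exact pow_eq_zero_iff (Nat.succ_ne_zero n) |>.1 h4
  have h5 : a ^ 2 * c = a := (sub_eq_zero.1 h3).symm
  refine ⟨a * c ^ 2, ?_, ?_⟩
  · calc a * (a * c ^ 2) * a = (a ^ 2 * c) * (a * c) := by ring
      _ = a * (a * c) := by rw [h5]
      _ = a ^ 2 * c := by ring
      _ = a := h5
  · calc a * c ^ 2 * a * (a * c ^ 2) = (a ^ 2 * c) * (a * c ^ 3) := by ring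
      _ = a * (a * c ^ 3) := by rw [h5]
      _ = (a ^ 2 * c) * c ^ 2 := by ring
      _ = a * c ^ 2 := by rw [h5]

end Pool.Agent.K3h72.RL
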